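import Pool.Agent.Helper20_Z3.Win

/-!
# All nodes are good
-/

set_option autoImplicit false

namespace Pool.Agent.Z3.H48

open Pool.Agent.Idx Pool.Agent.Idx.H48
open Pool.Agent.Z3

/-- the value of the part of the node outside the marked items -/
theorem kv_sum (hC : CvlStmt) (hG : GeoStmt) (hF : FchiStmt) {Γ : Gram L3} {n : ℕ}
    {sgn : ℕ → ℤ} {s : ℕ} {A : Γ.N} {f : Γ.F} {σ : List Γ.F} {c : List (Item Γ)} (hn : 1 ≤ n)
    (hsgn : ∀ p, sgn p = 1 ∨ sgn p = -1) (hNd : Nd evz Γ (W n sgn) s A f σ c)
    (b : ℕ → List L3 → Bool) (i : Fin 3) :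
    kv (fun t => vec t i) (rf b s c) =
      ∑ j ∈ Finset.range (4 * n), if cv b s c j = true then vec (wl n sgn j) i else 0 := by
  obtain ⟨P, Z, hw, hP⟩ := hNd.loc
  obtain ⟨gL, -, gA, -⟩ := hG n sgn hn hsgn
  obtain ⟨-, -, v3, -, v5, -⟩ := hC L3 Γ b b s c c
  obtain ⟨-, -, -, h4⟩ := hF L3 Γ P Z (rf b s c) (fun _ => 0) (fun t => vec t i) (cv b s c)
    (fun j => (v5 P Z hP j).symm)
  rw [v3.2.1, ← hw, gL] at h4
  rw [← h4, Finset.sum_filter]
  refine Finset.sum_congr rfl fun j hj => ?_
  rw [gA i j (Finset.mem_range.1 hj)]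

theorem split3 (F : ℕ → ℤ) (n : ℕ) : ∑ j ∈ Finset.range (4 * n), F j =
    ∑ j ∈ Finset.range n, F j + ∑ j ∈ Finset.range (2 * n), F (n + j) +
      ∑ j ∈ Finset.range n, F (3 * n + j) := by
  have e : 4 * n = (n + 2 * n) + n := by ring
  rw [e, Finset.sum_range_add, Finset.sum_range_add]
  congr 1
  refine Finset.sum_congr rfl fun j _ => ?_
  congr 1
  ring

theorem wl_left {n : ℕ} (sgn : ℕ → ℤ) {j : ℕ} (h : j < n) : wl n sgn j = Sum.inl false := by
  unfold wl
  rw [if_pos h]

theorem wl_mid {n : ℕ} (sgn : ℕ → ℤ) {j : ℕ} (h : j < 2 * n) :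
    wl n sgn (n + j) = Sum.inl true := by
  unfold wl
  rw [if_neg (by omega), if_pos (by omega)]

theorem cnt_sub_le {μ ν : ℕ → Bool} {n : ℕ} (h : ∀ p, p < n → ν p = true → μ p = true) :
    cnt μ n = cnt ν n + cnt (fun p => μ p && !(ν p)) n := by
  unfold cnt
  rw [← Finset.sum_add_distrib]
  refine Finset.sum_congr rfl fun p hp => ?_
  have h1 := h p (Finset.mem_range.1 hp)
  cases hμ : μ p <;> cases hν : ν p <;> simp_all

theorem V_sub_le {s : ℕ → ℤ} (hs : ∀ p, s p = 1 ∨ s p = -1) {μ ν : ℕ → Bool} {n : ℕ}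
    (h : ∀ p, p < n → ν p = true → μ p = true) :
    |V s μ n - V s ν n| ≤ cnt (fun p => μ p && !(ν p)) n := by
  unfold V cnt
  rw [← Finset.sum_sub_distrib]
  refine (Finset.abs_sum_le_sum_abs _ _).trans ?_
  refine Finset.sum_le_sum fun p hp => ?_
  have h1 := h p (Finset.mem_range.1 hp)
  rcases hs p with h2 | h2 <;> cases hμ : μ p <;> cases hν : ν p <;> simp_all

theorem abs_V_le {s : ℕ → ℤ} (hs : ∀ p, s p = 1 ∨ s p = -1) (μ : ℕ → Bool) (n : ℕ) :
    |V s μ n| ≤ cnt μ n := by
  unfold V cnt
  refine (Finset.abs_sum_le_sum_abs _ _).trans ?_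
  refine Finset.sum_le_sum fun p hp => ?_
  rcases hs p with h2 | h2 <;> cases hμ : μ p <;> simp_all

theorem exists_of_sum_neg {μ : ℕ → Bool} {m : ℕ} {F : ℕ → ℤ}
    (h : ∑ j ∈ Finset.range m, (if μ j = true then F j else 0) < 0) : ∃ j, j < m ∧ μ j = true := by
  by_contra hcon
  push Not at hcon
  have : ∑ j ∈ Finset.range m, (if μ j = true then F j else 0) = 0 := by
    refine Finset.sum_eq_zero fun j hj => ?_
    rw [if_neg (hcon j (Finset.mem_range.1 hj))]
  omega

theorem node (hC : CvlStmt) (hA : GapStmt) (hG : GeoStmt) (hW : WinStmt) (hE : FewStmt)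
    (hF : FchiStmt) : NodeStmt := by
  classical
  intro Γ k Q hk
  have hvec : ∀ t i, |vec t i| ≤ 3 := (hG 1 (fun _ => 1) le_rfl (fun _ => Or.inl rfl)).2.1
  obtain ⟨M₀, C₀, hgap⟩ := hA L3 Γ vec (6 * Q) hvec
  refine ⟨Q + 5 * M₀ + 3 * C₀ + 3, ?_⟩
  intro n R sgn hR hn hnQ hsgn s A f σ c hNd
  obtain ⟨gL, -, -, gC, -, gW, gG1, -⟩ := hG n sgn hn hsgn
  have hQ1 : 1 ≤ Q := by
    rcases Nat.eq_zero_or_pos Q with h | h
    · rw [h] at hnQ; omega
    · exact h
  have hnRR : n ≤ R * R := hnQ.trans (Nat.mul_le_mul_right _ (by omega))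
  obtain ⟨hfew, hcut⟩ := hE Γ k n R sgn s A f σ c hk hn hsgn hNd hnRR (by omega)
  obtain ⟨b, b1, b2, b3⟩ := hgap A f σ c hNd.der hNd.fill
    (fun w hw => (gW w (flat c)).1 (hNd.one w hw))
    (fun E u b' hm u' hu' => (gW u' u).1
      (H85.sgl L3 V3 inferInstance evz Γ A f σ c hNd.der hNd.fill hNd.one E u b' hm u' hu'))
  have hkR : (0 : ℤ) ≤ (k : ℤ) * R := by positivity
  have hRz : (Q + 5 * M₀ + 3 * C₀ + 3 : ℤ) ≤ R := by exact_mod_cast hR
  have hM0 : (0 : ℤ) ≤ M₀ := by positivity
  have hC0 : (0 : ℤ) ≤ C₀ := by positivity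
  have hQ0 : (1 : ℤ) ≤ Q := by exact_mod_cast hQ1
  obtain ⟨-, v2, -, -, -, -, v7, -⟩ := hC L3 Γ (big R) (big R) s c c
  by_cases hsh : ∃ s' E u, At s c s' E u ∧ R ≤ u.length ∧ b u = false
  · -- a long item of small value
    obtain ⟨s', E, u, hAt, hlen, hb⟩ := hsh
    obtain ⟨a1, a2, b', a3⟩ := H20.At_sl hNd hAt
    rw [gL] at a2
    have hval := b1 E u b' a3 hb
    obtain ⟨q1, q2, q3⟩ := gG1 M₀ s' (s' + u.length) (by omega) a2
      (by rw [a1]; exact hval 0) (by rw [a1]; exact hval 1) (by omega)
    have hc : cnt (fun p => cv (big R) s c (3 * n + p)) n ≤ (M₀ : ℤ) := by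
      have h1 := H20.cnt_le_card (fun p => cv (big R) s c (3 * n + p)) n
        (Finset.Ico (n - M₀) n) (by
          intro p hp hμ
          rw [Finset.mem_Ico]
          refine ⟨?_, hp⟩
          by_contra hcon
          have h2 : s' ≤ 3 * n + p := by omega
          have h3 : 3 * n + p < s' + u.length := by omega
          have h4 := v7 s' E u (3 * n + p) hAt h2 h3 (by simp [big, hlen])
          rw [h4] at hμ
          exact absurd hμ (by simp))
      refine h1.trans ?_
      rw [Nat.card_Ico]
      have : n - (n - M₀) ≤ M₀ := by omega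
      exact_mod_cast this
    refine ⟨?_, hcut, ?_, ?_, hfew⟩
    · refine (abs_V_le hsgn _ _).trans (hc.trans ?_)
      nlinarith
    · intro h
      exfalso
      nlinarith
    · intro h
      exfalso
      nlinarith
  · push Not at hsh
    have hsub : ∀ j, cv (fun _ u => b u) s c j = true → cv (big R) s c j = true := by
      obtain ⟨-, -, -, -, -, -, -, v8⟩ := hC L3 Γ (fun _ u => b u) (big R) s c c
      intro j hj
      refine v8 j ?_ hj
      intro s' E u hAt _ _ hbig
      have h1 : R ≤ u.length := by simpa [big] using hbig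
      have h2 := hsh s' E u hAt h1
      simpa using h2
    have hwin := hW Γ k n R (2 * Q) sgn s A f σ c b hk hn hsgn hNd (by
      intro E u b' hm hb
      obtain ⟨i, hi⟩ := b2 E u b' hm hb
      refine ⟨i, ?_⟩
      push_cast at hi ⊢
      linarith) (by
        have : 2 * n ≤ 2 * (Q * R) := by omega
        rw [Nat.mul_assoc]
        exact this)
    have hkv : ∀ i, |kv (fun t => vec t i) (rf (fun _ u => b u) s c)| * 3 ≤ 3 * C₀ + 2 * R := by
      intro i
      have h1 := b3 s i
      have h2 : (flat c).length ≤ 4 * n := by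
        obtain ⟨P, Z, hw, -⟩ := hNd.loc
        rw [← gL, hw]
        simp only [List.length_append]
        omega
      have h3 : ((flat c).length : ℤ) ≤ 4 * (Q * R) := by
        have : (flat c).length ≤ 4 * (Q * R) := by omega
        exact_mod_cast this
      push_cast at h1
      have h4 : (Q : ℤ) * (|kv (fun t => vec t i) (rf (fun _ u => b u) s c)| * 3) ≤
          (Q : ℤ) * (3 * C₀ + 2 * R) := by linarith
      exact le_of_mul_le_mul_left h4 (by linarith)
    have hX : cnt (fun p => cv (big R) s c (3 * n + p)) n =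
        cnt (fun p => cv (fun _ u => b u) s c (3 * n + p)) n +
        cnt (fun p => cv (big R) s c (3 * n + p) && !(cv (fun _ u => b u) s c (3 * n + p))) n :=
      cnt_sub_le (fun p _ h => hsub _ h)
    have hK : ∀ i, kv (fun t => vec t i) (rf (fun _ u => b u) s c) = _ := fun i =>
      (kv_sum hC hG hF hn hsgn hNd (fun _ u => b u) i).trans (split3 _ n)
    refine ⟨?_, hcut, ?_, ?_, hfew⟩
    · -- balance
      have h2 := hK 2
      have e1 : ∑ j ∈ Finset.range n, (if cv (fun _ u => b u) s c j = true then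
          vec (wl n sgn j) 2 else 0) = 0 := by
        refine Finset.sum_eq_zero fun j hj => ?_
        rw [wl_left sgn (Finset.mem_range.1 hj)]
        simp [vec]
      have e2 : ∑ j ∈ Finset.range (2 * n), (if cv (fun _ u => b u) s c (n + j) = true then
          vec (wl n sgn (n + j)) 2 else 0) = 0 := by
        refine Finset.sum_eq_zero fun j hj => ?_
        rw [wl_mid sgn (Finset.mem_range.1 hj)]
        simp [vec]
      have e3 : ∑ j ∈ Finset.range n, (if cv (fun _ u => b u) s c (3 * n + j) = true then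
          vec (wl n sgn (3 * n + j)) 2 else 0) =
          V sgn (fun p => cv (fun _ u => b u) s c (3 * n + p)) n := by
        unfold V
        refine Finset.sum_congr rfl fun j hj => ?_
        rw [(gC j (Finset.mem_range.1 hj)).2.2]
      rw [e1, e2, e3, zero_add, zero_add] at h2
      have h3 := hkv 2
      rw [h2] at h3
      have h4 := V_sub_le hsgn (μ := fun p => cv (big R) s c (3 * n + p))
        (ν := fun p => cv (fun _ u => b u) s c (3 * n + p)) (n := n) (fun p _ h => hsub _ h)
      have h5 := h4.trans hwin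
      rw [abs_le] at h5
      have h6 := abs_le.1 (show |V sgn (fun p => cv (fun _ u => b u) s c (3 * n + p)) n| ≤ R by
        linarith)
      rw [abs_le]
      constructor <;> nlinarith [h5.1, h5.2, h6.1, h6.2]
    · -- left side
      intro hbig
      have h2 := hK 0
      have e2 : ∑ j ∈ Finset.range (2 * n), (if cv (fun _ u => b u) s c (n + j) = true then
          vec (wl n sgn (n + j)) 0 else 0) = 0 := by
        refine Finset.sum_eq_zero fun j hj => ?_
        rw [wl_mid sgn (Finset.mem_range.1 hj)]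
        simp [vec]
      have e3 : ∑ j ∈ Finset.range n, (if cv (fun _ u => b u) s c (3 * n + j) = true then
          vec (wl n sgn (3 * n + j)) 0 else 0) =
          cnt (fun p => cv (fun _ u => b u) s c (3 * n + p)) n := by
        unfold cnt
        refine Finset.sum_congr rfl fun j hj => ?_
        rw [(gC j (Finset.mem_range.1 hj)).1]
      rw [e2, e3, add_zero] at h2
      have h3 := hkv 0
      have h4 := le_abs_self (kv (fun t => vec t 0) (rf (fun _ u => b u) s c))
      obtain ⟨j, hj, hj2⟩ := exists_of_sum_neg (m := n)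
        (μ := fun j => cv (fun _ u => b u) s c j) (F := fun j => vec (wl n sgn j) 0) (by
          show ∑ j ∈ Finset.range n, (if cv (fun _ u => b u) s c j = true then
            vec (wl n sgn j) 0 else 0) < 0
          nlinarith)
      exact ⟨j, hj, hsub j hj2⟩
    · -- middle side
      intro hbig
      have h2 := hK 1
      have e1 : ∑ j ∈ Finset.range n, (if cv (fun _ u => b u) s c j = true then
          vec (wl n sgn j) 1 else 0) = 0 := by
        refine Finset.sum_eq_zero fun j hj => ?_
        rw [wl_left sgn (Finset.mem_range.1 hj)]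
        simp [vec]
      have e3 : cnt (fun p => cv (fun _ u => b u) s c (3 * n + p)) n ≤
          ∑ j ∈ Finset.range n, (if cv (fun _ u => b u) s c (3 * n + j) = true then
          vec (wl n sgn (3 * n + j)) 1 else 0) := by
        unfold cnt
        refine Finset.sum_le_sum fun j hj => ?_
        have := (gC j (Finset.mem_range.1 hj)).2.1
        split_ifs
        · exact this
        · exact le_rfl
      rw [e1, zero_add] at h2
      have h3 := hkv 1
      have h4 := le_abs_self (kv (fun t => vec t 1) (rf (fun _ u => b u) s c))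
      obtain ⟨j, hj, hj2⟩ := exists_of_sum_neg (m := 2 * n)
        (μ := fun j => cv (fun _ u => b u) s c (n + j)) (F := fun j => vec (wl n sgn (n + j)) 1)
        (by
          show ∑ j ∈ Finset.range (2 * n), (if cv (fun _ u => b u) s c (n + j) = true then
            vec (wl n sgn (n + j)) 1 else 0) < 0
          nlinarith)
      exact ⟨n + j, by omega, by omega, hsub _ hj2⟩

end Pool.Agent.Z3.H48
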